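import Pool.Agent.E8helper15.FT.Stm

/-!
# Project FT (helper15), piece ITER: one step of the logistic map
-/

set_option autoImplicit false

namespace Pool.Agent.E8helper54.FT

open NumberField IsDedekindDomain
open Pool.Agent.E8helper15.FT

variable {K : Type} [Field K] [NumberField K]

lemma log_nn (v : HeightOneSpectrum (𝓞 K)) : 0 ≤ Real.log (Ideal.absNorm v.asIdeal) :=
  Real.log_natCast_nonneg _

lemma norm_ne (v : HeightOneSpectrum (𝓞 K)) : ((Ideal.absNorm v.asIdeal : ℕ) : ℝ) ≠ 0 := by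
  rw [Nat.cast_ne_zero, Ne, Ideal.absNorm_eq_zero_iff]
  exact v.ne_bot

lemma log_lrad {l : K} (hfin : (Supp l).Finite) :
    Real.log (lrad l) = ∑ v ∈ hfin.toFinset, Real.log (Ideal.absNorm v.asIdeal) := by
  unfold lrad
  rw [finprod_mem_eq_finite_toFinset_prod _ hfin, Real.log_prod (fun v _ => norm_ne v)]

lemma supp_fin (h2 : S_SUP) {l : K} (h0 : l ≠ 0) (h1 : l ≠ 1) : (Supp l).Finite :=
  ((h2 K l h0).1).union ((h2 K (1 - l) (sub_ne_zero.2 h1.symm)).1)

lemma lt_one {x : WithZero (Multiplicative ℤ)} (hx0 : x ≠ 0) (hx : x < 1) :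
    x ≤ WithZero.exp (-(1 : ℤ)) := by
  rw [← WithZero.exp_zero, ← WithZero.log_lt_iff_lt_exp hx0] at hx
  rw [← WithZero.log_le_iff_le_exp hx0]
  omega

/-- the radical of `logi l` -/
lemma lrad_step (h1 : S_HT) (h2 : S_SUP) : ∃ c : ℝ, ∀ l : K, l ≠ 0 → l ≠ 1 → 1 - 2 * l ≠ 0 →
    Real.log (lrad (logi l)) ≤ Real.log (lrad l) + Height.logHeight₁ l + c := by
  obtain ⟨c, hc⟩ := h1 K
  have h20 : (2 : K) ≠ 0 := two_ne_zero
  obtain ⟨hV2, -⟩ := h2 K 2 h20
  refine ⟨∑ v ∈ hV2.toFinset, Real.log (Ideal.absNorm v.asIdeal) + c, ?_⟩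
  intro l h0 h1' h12
  have hl0 : logi l ≠ 0 := by
    unfold logi
    exact mul_ne_zero (mul_ne_zero (by norm_num) h0) (sub_ne_zero.2 h1'.symm)
  have e1 : 1 - logi l = (1 - 2 * l) ^ 2 := by
    unfold logi
    ring
  have hl1 : logi l ≠ 1 := by
    intro h
    rw [h, sub_self] at e1
    exact h12 (pow_eq_zero_iff two_ne_zero |>.1 e1.symm)
  have hF := supp_fin h2 h0 h1'
  have hF' := supp_fin h2 hl0 hl1
  obtain ⟨hW0, hW⟩ := h2 K (1 - 2 * l) h12
  rw [log_lrad hF, log_lrad hF']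
  classical
  set W : Finset (HeightOneSpectrum (𝓞 K)) :=
    hW0.toFinset.filter (fun v => v.valuation K (1 - 2 * l) < 1) with hWdef
  have hWsum : ∑ v ∈ W, Real.log (Ideal.absNorm v.asIdeal) ≤ Height.logHeight₁ (1 - 2 * l) := by
    have := hW 1 le_rfl W (fun v hv => by
      have h3 := (Finset.mem_filter.1 hv).2
      have h4 : v.valuation K (1 - 2 * l) ≠ 0 := (Valuation.ne_zero_iff _).2 h12
      exact lt_one h4 h3)
    rwa [Nat.cast_one, one_mul] at this
  have hsub : hF'.toFinset ⊆ hF.toFinset ∪ (hV2.toFinset ∪ W) := by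
    intro v hv
    rw [Set.Finite.mem_toFinset] at hv
    by_contra hcon
    rw [Finset.mem_union, Finset.mem_union, not_or, not_or, Set.Finite.mem_toFinset,
      Set.Finite.mem_toFinset] at hcon
    obtain ⟨hn1, hn2, hn3⟩ := hcon
    have a1 : v.valuation K l = 1 ∧ v.valuation K (1 - l) = 1 := by
      by_contra h
      apply hn1
      by_cases hh : v.valuation K l = 1
      · exact Or.inr (fun h' => h ⟨hh, h'⟩)
      · exact Or.inl hh
    have a2 : v.valuation K (2 : K) = 1 := by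
      by_contra h
      exact hn2 h
    have a3 : v.valuation K (1 - 2 * l) ≤ 1 := by
      refine (Valuation.map_sub_le (v.valuation K) ?_ ?_)
      · rw [map_one]
      · rw [map_mul, a2, a1.1, one_mul]
    have a4 : v.valuation K (1 - 2 * l) = 1 := by
      by_contra h
      apply hn3
      rw [hWdef, Finset.mem_filter, Set.Finite.mem_toFinset]
      exact ⟨h, lt_of_le_of_ne a3 h⟩
    have a5 : v.valuation K (logi l) = 1 := by
      unfold logi
      have e4 : (4 : K) = 2 * 2 := by norm_num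
      rw [map_mul, map_mul, a1.1, a1.2, e4, map_mul, a2]
      simp
    have a6 : v.valuation K (1 - logi l) = 1 := by
      rw [e1, map_pow, a4, one_pow]
    rcases hv with h | h
    · exact h a5
    · exact h a6
  have hs1 : ∑ v ∈ hF'.toFinset, Real.log (Ideal.absNorm v.asIdeal) ≤
      ∑ v ∈ hF.toFinset ∪ (hV2.toFinset ∪ W), Real.log (Ideal.absNorm v.asIdeal) :=
    Finset.sum_le_sum_of_subset_of_nonneg hsub (fun v _ _ => log_nn v)
  have hs2 : ∀ S T : Finset (HeightOneSpectrum (𝓞 K)),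
      ∑ v ∈ S ∪ T, Real.log (Ideal.absNorm v.asIdeal) ≤
        ∑ v ∈ S, Real.log (Ideal.absNorm v.asIdeal) +
          ∑ v ∈ T, Real.log (Ideal.absNorm v.asIdeal) := by
    intro S T
    rw [← Finset.sum_union_inter]
    have : 0 ≤ ∑ v ∈ S ∩ T, Real.log (Ideal.absNorm v.asIdeal) :=
      Finset.sum_nonneg (fun v _ => log_nn v)
    linarith
  have hs3 := hs2 hF.toFinset (hV2.toFinset ∪ W)
  have hs4 := hs2 hV2.toFinset W
  have hh := (hc l).2.1
  linarith

theorem t_ITER (h1 : S_HT) (h2 : S_SUP) : S_ITER := by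
  intro K _ _ S hS ε hε
  obtain ⟨c1, hc1⟩ := h1 K
  obtain ⟨c3, hc3⟩ := lrad_step (K := K) h1 h2
  set ε' : ℝ := ε / (2 + ε) with hε'
  have hε'0 : 0 < ε' := by positivity
  obtain ⟨c2, hc2⟩ := hS ε' hε'0
  have e1 : 1 + ε' = (2 + 2 * ε) / (2 + ε) := by
    rw [hε']; field_simp; ring
  have e2 : 1 - ε' = 2 / (2 + ε) := by
    rw [hε']; field_simp; ring
  set C : ℝ := (2 + ε) / 2 * (c1 + c2 + (1 + ε') * c3) with hC
  refine ⟨|C| + |Height.logHeight₁ (1 / 2 : K) - (1 + ε) * Real.log (lrad (1 / 2 : K))|, ?_⟩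
  intro l hl h0 h1'
  by_cases h12 : 1 - 2 * l = 0
  · have hl2 : l = 1 / 2 := by
      have h20 : (2 : K) ≠ 0 := two_ne_zero
      rw [eq_div_iff h20]
      linear_combination -h12
    rw [hl2]
    have := le_abs_self (Height.logHeight₁ (1 / 2 : K) - (1 + ε) * Real.log (lrad (1 / 2 : K)))
    have := abs_nonneg C
    linarith
  · have hl0 : logi l ≠ 0 := by
      unfold logi
      exact mul_ne_zero (mul_ne_zero (by norm_num) h0) (sub_ne_zero.2 h1'.symm)
    have hl1 : logi l ≠ 1 := by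
      intro h
      have e3 : 1 - logi l = (1 - 2 * l) ^ 2 := by
        unfold logi
        ring
      rw [h, sub_self] at e3
      exact h12 (pow_eq_zero_iff two_ne_zero |>.1 e3.symm)
    have a1 := (hc1 l).1
    have a2 := hc2 (logi l) ⟨l, hl, rfl⟩ hl0 hl1
    have a3 := hc3 l h0 h1' h12
    have a4 : (1 + ε') * Real.log (lrad (logi l)) ≤
        (1 + ε') * (Real.log (lrad l) + Height.logHeight₁ l + c3) :=
      mul_le_mul_of_nonneg_left a3 (by positivity)
    have a5 : (1 - ε') * Height.logHeight₁ l ≤ (1 + ε') * Real.log (lrad l) +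
        (c1 + c2 + (1 + ε') * c3) := by linarith
    rw [e2] at a5
    have hpos : 0 < (2 + ε) / 2 := by positivity
    have a6 := mul_le_mul_of_nonneg_left a5 hpos.le
    have a7 : (2 + ε) / 2 * (2 / (2 + ε) * Height.logHeight₁ l) = Height.logHeight₁ l := by
      field_simp
    have a8 : (2 + ε) / 2 * ((1 + ε') * Real.log (lrad l) + (c1 + c2 + (1 + ε') * c3)) =
        (1 + ε) * Real.log (lrad l) + C := by
      rw [hC, mul_add, ← mul_assoc]
      congr 2
      rw [e1]
      field_simp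
    rw [a7, a8] at a6
    have := le_abs_self C
    have := abs_nonneg (Height.logHeight₁ (1 / 2 : K) - (1 + ε) * Real.log (lrad (1 / 2 : K)))
    linarith

end Pool.Agent.E8helper54.FT
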